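import Mathlib

/-!
# Finite automata: mergeable and stable pairs

`δ : V → A → V` is a complete deterministic automaton with finite state set `V`. The key result is
`stab_of_pairwise`, a pairwise form of the Friedman-Trahtman lemma on cliques of maximum size.
-/

namespace Pool.Agent.H10.Sync

open Finset

variable {V A : Type*}

/-- The action of a word. -/
def run (δ : V → A → V) (u : V) (w : List A) : V := w.foldl δ u

@[simp] theorem run_nil (δ : V → A → V) (u : V) : run δ u [] = u := rfl

@[simp] theorem run_cons (δ : V → A → V) (u : V) (x : A) (w : List A) :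
    run δ u (x :: w) = run δ (δ u x) w := rfl

theorem run_append (δ : V → A → V) (u : V) (w w' : List A) :
    run δ u (w ++ w') = run δ (run δ u w) w' := by
  simp [run, List.foldl_append]

/-- Mergeable pairs of states. -/
def Merg (δ : V → A → V) (u v : V) : Prop := ∃ w, run δ u w = run δ v w

/-- Stable pairs of states. -/
def Stab (δ : V → A → V) (u v : V) : Prop := ∀ w, Merg δ (run δ u w) (run δ v w)

variable {δ : V → A → V}

theorem Merg.symm {u v : V} (h : Merg δ u v) : Merg δ v u := by
  obtain ⟨w, hw⟩ := h
  exact ⟨w, hw.symm⟩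

theorem Merg.refl (u : V) : Merg δ u u := ⟨[], rfl⟩

theorem Merg.of_run {u v : V} {w : List A} (h : Merg δ (run δ u w) (run δ v w)) : Merg δ u v := by
  obtain ⟨w', hw'⟩ := h
  exact ⟨w ++ w', by rw [run_append, run_append, hw']⟩

theorem Stab.merg {u v : V} (h : Stab δ u v) : Merg δ u v := h []

theorem Stab.refl (u : V) : Stab δ u u := fun _ => Merg.refl _

theorem Stab.symm {u v : V} (h : Stab δ u v) : Stab δ v u := fun w => (h w).symm

theorem Stab.run {u v : V} (h : Stab δ u v) (w : List A) : Stab δ (run δ u w) (run δ v w) := by
  intro w'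
  rw [← run_append, ← run_append]
  exact h _

theorem Stab.step {u v : V} (h : Stab δ u v) (x : A) : Stab δ (δ u x) (δ v x) := h.run [x]

theorem Merg.trans_stab {u v z : V} (h : Merg δ u v) (h' : Stab δ v z) : Merg δ u z := by
  obtain ⟨w, hw⟩ := h
  obtain ⟨w', hw'⟩ := h' w
  refine ⟨w ++ w', ?_⟩
  rw [run_append, run_append, hw, hw']

theorem Stab.trans {u v z : V} (h : Stab δ u v) (h' : Stab δ v z) : Stab δ u z :=
  fun w => (h w).trans_stab (h'.run w)

/-- Cliques: sets of pairwise non-mergeable states. -/
def Clique (δ : V → A → V) (C : Finset V) : Prop := ∀ u ∈ C, ∀ v ∈ C, u ≠ v → ¬ Merg δ u v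

theorem clique_image [DecidableEq V] {C : Finset V} (hC : Clique δ C) (w : List A) :
    Clique δ (C.image fun u => run δ u w) ∧ (C.image fun u => run δ u w).card = C.card := by
  constructor
  · intro a ha b hb hab hm
    rw [mem_image] at ha hb
    obtain ⟨u, hu, rfl⟩ := ha
    obtain ⟨v, hv, rfl⟩ := hb
    have huv : u ≠ v := fun h => hab (by rw [h])
    exact hC u hu v hv huv hm.of_run
  · apply card_image_of_injOn
    intro u hu v hv huv
    by_contra hne
    exact hC u hu v hv hne ⟨w, huv⟩

/-- **Pairwise clique lemma.** If the automaton is strongly connected and for every state `u` not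
stably equivalent to `v` some letter `y` sends `v` to `t` and `u` to a state stably equivalent to
the image of `u` under the letter `x`, then `t` is stably equivalent to the image of `v` under
`x`. -/
theorem stab_of_pairwise [Fintype V] [DecidableEq V] (hconn : ∀ u v : V, ∃ w, run δ u w = v)
    (v t : V) (x : A)
    (h : ∀ u, ¬ Stab δ u v → ∃ y, δ v y = t ∧ Stab δ (δ u y) (δ u x)) : Stab δ (δ v x) t := by
  classical
  -- a clique of maximum size
  obtain ⟨C, hC, hmax⟩ := Finset.exists_max_image
    ((univ : Finset (Finset V)).filter fun C => Clique δ C) Finset.card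
    ⟨∅, by simp [Clique]⟩
  simp only [mem_filter, mem_univ, true_and] at hC hmax
  have hne : C.Nonempty := by
    rw [← card_pos]
    have h1 : Clique δ ({v} : Finset V) := by
      intro a ha b hb hab
      rw [mem_singleton] at ha hb
      exact absurd (ha.trans hb.symm) hab
    have := hmax _ h1
    rw [card_singleton] at this
    omega
  obtain ⟨c, hc⟩ := hne
  obtain ⟨w0, hw0⟩ := hconn c v
  obtain ⟨hC1, hcard1⟩ := clique_image hC w0
  set C1 := C.image fun u => run δ u w0 with hC1def
  have hv1 : v ∈ C1 := by
    rw [hC1def, mem_image]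
    exact ⟨c, hc, hw0⟩
  intro w
  by_contra hnm
  obtain ⟨hK, hcardK⟩ := clique_image hC1 (x :: w)
  set K := C1.image fun u => run δ u (x :: w) with hKdef
  have hz : ∀ k ∈ K, ¬ Merg δ (run δ t w) k := by
    intro k hk
    rw [hKdef, mem_image] at hk
    obtain ⟨u, hu, rfl⟩ := hk
    by_cases huv : u = v
    · subst huv
      rw [run_cons]
      exact fun hm => hnm hm.symm
    · have hnuv : ¬ Merg δ u v := hC1 u hu v hv1 huv
      obtain ⟨y, hy1, hy2⟩ := h u fun hs => hnuv hs.merg
      intro hm
      rw [run_cons] at hm
      have h1 : Merg δ (run δ t w) (run δ (δ u y) w) := hm.trans_stab (hy2.run w).symm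
      rw [← hy1] at h1
      have h2 : Merg δ (run δ v (y :: w)) (run δ u (y :: w)) := by
        rw [run_cons, run_cons]; exact h1
      exact hnuv h2.of_run.symm
  have hzK : run δ t w ∉ K := fun hmem => hz _ hmem (Merg.refl _)
  have hins : Clique δ (insert (run δ t w) K) := by
    intro a ha b hb hab
    rw [mem_insert] at ha hb
    rcases ha with rfl | ha
    · rcases hb with rfl | hb
      · exact absurd rfl hab
      · exact hz b hb
    · rcases hb with rfl | hb
      · exact fun hm => hz a ha hm.symm
      · exact hK a ha b hb hab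
  have := hmax _ hins
  rw [card_insert_of_notMem hzK, hcardK, hcard1] at this
  omega

/-- Synchronizing automata. -/
def IsSync (δ : V → A → V) : Prop := ∃ (w : List A) (p : V), ∀ q, run δ q w = p

theorem isSync_of_merg [Fintype V] [Nonempty V] (h : ∀ u v, Merg δ u v) : IsSync δ := by
  classical
  have key : ∀ S : Finset V, ∃ (w : List A) (p : V), ∀ q ∈ S, run δ q w = p := by
    intro S
    induction S using Finset.induction_on with
    | empty => exact ⟨[], Classical.arbitrary V, fun q hq => absurd hq (by simp)⟩
    | insert a S ha ih =>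
      obtain ⟨w, p, hw⟩ := ih
      obtain ⟨w', hw'⟩ := h (run δ a w) p
      refine ⟨w ++ w', run δ p w', fun q hq => ?_⟩
      rw [run_append]
      rcases mem_insert.1 hq with rfl | hq
      · exact hw'
      · rw [hw q hq]
  obtain ⟨w, p, hw⟩ := key univ
  exact ⟨w, p, fun q => hw q (mem_univ q)⟩

theorem IsSync.merg (h : IsSync δ) (u v : V) : Merg δ u v := by
  obtain ⟨w, p, hw⟩ := h
  exact ⟨w, by rw [hw, hw]⟩

/-- If all letters act in the same way up to stability and any two states can reach a common state
in the same time, then the automaton is synchronizing. -/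
theorem isSync_of_irrelevant [Fintype V] [Nonempty V] (h : ∀ v x y, Stab δ (δ v x) (δ v y))
    (hm : ∀ u v, ∃ w1 w2 : List A, w1.length = w2.length ∧ run δ u w1 = run δ v w2) :
    IsSync δ := by
  have key : ∀ (w w' : List A), w.length = w'.length → ∀ a b, Stab δ a b →
      Stab δ (run δ a w) (run δ b w') := by
    intro w
    induction w with
    | nil =>
      intro w' hl a b hab
      have : w' = [] := List.length_eq_zero_iff.1 hl.symm
      rw [this]
      exact hab
    | cons x w ih =>
      intro w' hl a b hab
      match w', hl with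
      | y :: w', hl =>
        rw [run_cons, run_cons]
        exact ih w' (by simpa using hl) _ _ ((hab.step x).trans (h b x y))
  apply isSync_of_merg
  intro u v
  obtain ⟨w1, w2, hl, hw⟩ := hm u v
  have h1 : Stab δ (run δ u w2) (run δ u w1) := key w2 w1 hl.symm u u (Stab.refl u)
  rw [hw] at h1
  exact h1.merg.of_run

end Pool.Agent.H10.Sync
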