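import Pool.Agent.H10.Sync.Defs

/-! # Counting colorings -/

namespace Pool.Agent.H10.Sync

open Finset Function Equiv

open scoped Classical

variable {n k : ℕ}

/-! ### Permutations -/

theorem card_perm_apply_eq (e y y' : Fin k) :
    ((univ : Finset (Perm (Fin k))).filter fun τ => τ e = y).card =
      ((univ : Finset (Perm (Fin k))).filter fun τ => τ e = y').card := by
  apply Finset.card_nbij' (fun τ => swap y y' * τ) (fun τ => swap y y' * τ)
  · intro τ hτ
    simp only [coe_filter, mem_univ, true_and, Set.mem_ofPred_eq] at hτ ⊢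
    rw [Perm.mul_apply, hτ, swap_apply_left]
  · intro τ hτ
    simp only [coe_filter, mem_univ, true_and, Set.mem_ofPred_eq] at hτ ⊢
    rw [Perm.mul_apply, hτ, swap_apply_right]
  · intro τ _
    simp
  · intro τ _
    simp

theorem card_perm_apply (e y : Fin k) :
    ((univ : Finset (Perm (Fin k))).filter fun τ => τ e = y).card * k =
      Fintype.card (Perm (Fin k)) := by
  have h1 : ∑ z : Fin k, ((univ : Finset (Perm (Fin k))).filter fun τ => τ e = z).card =
      Fintype.card (Perm (Fin k)) := by
    rw [← Finset.card_univ]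
    exact (Finset.card_eq_sum_card_fiberwise (f := fun τ : Perm (Fin k) => τ e)
      (t := univ) fun _ _ => by simp).symm
  rw [← h1, Finset.sum_congr rfl fun z _ => card_perm_apply_eq e z y]
  simp [mul_comm]

theorem card_perm_apply_eq₂ {e e' y y' z : Fin k} (hy : y' ≠ y) (hz : z ≠ y) :
    ((univ : Finset (Perm (Fin k))).filter fun τ => τ e = y ∧ τ e' = y').card =
      ((univ : Finset (Perm (Fin k))).filter fun τ => τ e = y ∧ τ e' = z).card := by
  apply Finset.card_nbij' (fun τ => swap y' z * τ) (fun τ => swap y' z * τ)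
  · intro τ hτ
    simp only [coe_filter, mem_univ, true_and, Set.mem_ofPred_eq] at hτ ⊢
    rw [Perm.mul_apply, Perm.mul_apply, hτ.1, hτ.2, swap_apply_left,
      swap_apply_of_ne_of_ne hy.symm hz.symm]
    exact ⟨rfl, rfl⟩
  · intro τ hτ
    simp only [coe_filter, mem_univ, true_and, Set.mem_ofPred_eq] at hτ ⊢
    rw [Perm.mul_apply, Perm.mul_apply, hτ.1, hτ.2, swap_apply_right,
      swap_apply_of_ne_of_ne hy.symm hz.symm]
    exact ⟨rfl, rfl⟩
  · intro τ _
    simp
  · intro τ _
    simp

theorem card_perm_apply₂ {e e' : Fin k} (he : e ≠ e') (y y' : Fin k) :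
    ((univ : Finset (Perm (Fin k))).filter fun τ => τ e = y ∧ τ e' = y').card * (k * (k - 1)) ≤
      Fintype.card (Perm (Fin k)) := by
  by_cases hyy : y' = y
  · have h0 : ((univ : Finset (Perm (Fin k))).filter fun τ => τ e = y ∧ τ e' = y') = ∅ := by
      apply filter_eq_empty_iff.2
      rintro τ - ⟨h1, h2⟩
      exact he (τ.injective (by rw [h1, h2, hyy]))
    rw [h0]
    simp
  · have h1 : ∑ z ∈ univ.erase y,
        ((univ : Finset (Perm (Fin k))).filter fun τ => τ e = y ∧ τ e' = z).card =
        ((univ : Finset (Perm (Fin k))).filter fun τ => τ e = y).card := by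
      rw [Finset.card_eq_sum_card_fiberwise (f := fun τ : Perm (Fin k) => τ e')
        (t := univ.erase y)]
      · apply Finset.sum_congr rfl
        intro z _
        rw [filter_filter]
      · intro τ hτ
        simp only [coe_filter, mem_univ, true_and, Set.mem_ofPred_eq] at hτ
        simp only [coe_erase, coe_univ, Set.mem_sdiff, Set.mem_univ, Set.mem_singleton_iff,
          true_and]
        intro h
        exact he (τ.injective (by rw [hτ, h]))
    have h2 : ∑ z ∈ univ.erase y,
        ((univ : Finset (Perm (Fin k))).filter fun τ => τ e = y ∧ τ e' = z).card =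
        (k - 1) * ((univ : Finset (Perm (Fin k))).filter fun τ => τ e = y ∧ τ e' = y').card := by
      rw [Finset.sum_congr rfl fun z hz =>
        (card_perm_apply_eq₂ (e := e) (e' := e') hyy (Finset.ne_of_mem_erase hz)).symm]
      rw [sum_const, card_erase_of_mem (mem_univ y), card_univ, Fintype.card_fin, smul_eq_mul]
    rw [← card_perm_apply e y, ← h1, h2]
    apply le_of_eq
    ring

/-- Permutations avoiding a set `B` on a set `F`. -/
theorem card_perm_avoid (B F : Finset (Fin k)) :
    (((univ : Finset (Perm (Fin k))).filter fun τ => ∀ f ∈ F, τ f ∉ B).card : ℝ) *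
      (k : ℝ) ^ F.card ≤ ((k : ℝ) - B.card) ^ F.card * Fintype.card (Perm (Fin k)) := by
  induction F using Finset.induction_on with
  | empty => simp
  | insert g F hg ih =>
    set E := (univ : Finset (Perm (Fin k))).filter fun τ => ∀ f ∈ F, τ f ∉ B with hE
    have hBk : (B.card : ℝ) ≤ k := by
      have := card_le_univ B
      rw [Fintype.card_fin] at this
      exact_mod_cast this
    -- symmetry
    have hsym : ∀ g' ∉ F, ∀ β : Fin k, (E.filter fun τ => τ g' = β).card =
        (E.filter fun τ => τ g = β).card := by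
      intro g' hg' β
      have hsw : ∀ f ∈ F, swap g g' f = f := fun f hf =>
        swap_apply_of_ne_of_ne (fun h => hg (h ▸ hf)) (fun h => hg' (h ▸ hf))
      apply Finset.card_nbij' (fun τ => τ * swap g g') (fun τ => τ * swap g g')
      · intro τ hτ
        simp only [hE, coe_filter, mem_filter, mem_univ, true_and, Set.mem_ofPred_eq] at hτ ⊢
        refine ⟨fun f hf => ?_, ?_⟩
        · rw [Perm.mul_apply, hsw f hf]; exact hτ.1 f hf
        · rw [Perm.mul_apply, swap_apply_left]; exact hτ.2
      · intro τ hτ
        simp only [hE, coe_filter, mem_filter, mem_univ, true_and, Set.mem_ofPred_eq] at hτ ⊢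
        refine ⟨fun f hf => ?_, ?_⟩
        · rw [Perm.mul_apply, hsw f hf]; exact hτ.1 f hf
        · rw [Perm.mul_apply, swap_apply_right]; exact hτ.2
      · intro τ _
        simp [mul_assoc]
      · intro τ _
        simp [mul_assoc]
    have hβ : ∀ β ∈ B, E.card ≤ k * (E.filter fun τ => τ g = β).card := by
      intro β hβB
      have h1 : E.card = ∑ g' ∈ Fᶜ, (E.filter fun τ => τ g' = β).card := by
        rw [Finset.card_eq_sum_card_fiberwise (f := fun τ : Perm (Fin k) => τ.symm β)
          (t := Fᶜ)]
        · apply Finset.sum_congr rfl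
          intro g' _
          congr 1
          apply filter_congr
          intro τ _
          rw [Equiv.symm_apply_eq]
          exact eq_comm
        · intro τ hτ
          rw [mem_coe, mem_compl]
          intro hmem
          rw [hE, mem_coe, mem_filter] at hτ
          apply hτ.2 _ hmem
          rw [Equiv.apply_symm_apply]
          exact hβB
      rw [h1, Finset.sum_congr rfl fun g' hg' => hsym g' (mem_compl.1 hg') β, sum_const,
        smul_eq_mul]
      apply Nat.mul_le_mul_right
      have := card_le_univ Fᶜ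
      rwa [Fintype.card_fin] at this
    have hin : B.card * E.card ≤ k * (E.filter fun τ => τ g ∈ B).card := by
      have h1 : (E.filter fun τ => τ g ∈ B).card = ∑ β ∈ B, (E.filter fun τ => τ g = β).card := by
        rw [Finset.card_eq_sum_card_fiberwise (f := fun τ : Perm (Fin k) => τ g) (t := B)]
        · apply Finset.sum_congr rfl
          intro β hβB
          rw [filter_filter]
          congr 1
          apply filter_congr
          intro τ _
          constructor
          · exact fun h => h.2
          · exact fun h => ⟨h ▸ hβB, h⟩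
        · intro τ hτ
          rw [mem_coe, mem_filter] at hτ
          exact hτ.2
      rw [h1, mul_sum, ← smul_eq_mul, ← sum_const]
      exact sum_le_sum hβ
    have hsplit : (E.filter fun τ => τ g ∈ B).card + (E.filter fun τ => ¬ τ g ∈ B).card = E.card :=
      card_filter_add_card_filter_not _
    have hins : ((univ : Finset (Perm (Fin k))).filter fun τ => ∀ f ∈ insert g F, τ f ∉ B) =
        E.filter fun τ => ¬ τ g ∈ B := by
      ext τ
      simp only [hE, mem_filter, mem_univ, true_and, forall_mem_insert]
      tauto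
    rw [hins, card_insert_of_notMem hg, pow_succ, pow_succ]
    have h1 : (k : ℝ) * (E.filter fun τ => ¬ τ g ∈ B).card ≤ ((k : ℝ) - B.card) * E.card := by
      have h2 : (B.card : ℝ) * E.card ≤ k * (E.filter fun τ => τ g ∈ B).card := by
        exact_mod_cast hin
      have h3 : ((E.filter fun τ => τ g ∈ B).card : ℝ) + (E.filter fun τ => ¬ τ g ∈ B).card =
          E.card := by exact_mod_cast hsplit
      rw [← h3] at h2 ⊢
      nlinarith
    calc ((E.filter fun τ => ¬ τ g ∈ B).card : ℝ) * ((k : ℝ) ^ F.card * k)
        = (k : ℝ) ^ F.card * (k * (E.filter fun τ => ¬ τ g ∈ B).card) := by ring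
      _ ≤ (k : ℝ) ^ F.card * (((k : ℝ) - B.card) * E.card) := by gcongr
      _ = ((k : ℝ) - B.card) * (E.card * (k : ℝ) ^ F.card) := by ring
      _ ≤ ((k : ℝ) - B.card) * (((k : ℝ) - B.card) ^ F.card * Fintype.card (Perm (Fin k))) := by
          apply mul_le_mul_of_nonneg_left ih
          linarith
      _ = ((k : ℝ) - B.card) ^ F.card * ((k : ℝ) - B.card) * Fintype.card (Perm (Fin k)) := by
          ring

/-! ### Colorings: fixing all but one vertex -/

theorem fiber_card (v : Fin n) (P Q : Coloring n k → Prop)
    (hQ : ∀ c τ, Q (update c v τ) ↔ Q c) :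
    ((univ : Finset (Coloring n k)).filter fun c => P c ∧ Q c).card *
        Fintype.card (Perm (Fin k)) =
      ∑ c ∈ (univ : Finset (Coloring n k)).filter Q,
        ((univ : Finset (Perm (Fin k))).filter fun τ => P (update c v τ)).card := by
  rw [← Finset.card_sigma, ← Finset.card_univ, ← Finset.card_product]
  apply Finset.card_nbij' (fun y : Coloring n k × Perm (Fin k) =>
      (⟨update y.1 v y.2, y.1 v⟩ : Sigma fun _ : Coloring n k => Perm (Fin k)))
    (fun x => (update x.1 v x.2, x.1 v))
  · rintro ⟨c, τ⟩ hc
    simp only [coe_product, coe_filter, mem_univ, true_and, coe_univ, Set.mem_prod,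
      Set.mem_ofPred_eq, Set.mem_univ, and_true] at hc
    simp only [coe_sigma, coe_filter, mem_univ, true_and, Set.mem_sigma_iff, Set.mem_ofPred_eq,
      update_idem, update_eq_self]
    exact ⟨(hQ c τ).2 hc.2, hc.1⟩
  · rintro ⟨c, τ⟩ hc
    simp only [coe_sigma, coe_filter, mem_univ, true_and, Set.mem_sigma_iff, Set.mem_ofPred_eq]
      at hc
    simp only [coe_product, coe_filter, mem_univ, true_and, coe_univ, Set.mem_prod,
      Set.mem_ofPred_eq, Set.mem_univ, and_true]
    exact ⟨hc.2, (hQ c τ).2 hc.1⟩
  · rintro ⟨c, τ⟩ _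
    simp
  · rintro ⟨c, τ⟩ _
    simp

theorem fiber_le (v : Fin n) (P Q : Coloring n k → Prop)
    (hQ : ∀ c τ, Q (update c v τ) ↔ Q c) (ρ : ℝ)
    (h : ∀ c, Q c → (((univ : Finset (Perm (Fin k))).filter fun τ => P (update c v τ)).card : ℝ) ≤
      ρ * Fintype.card (Perm (Fin k))) :
    (((univ : Finset (Coloring n k)).filter fun c => P c ∧ Q c).card : ℝ) ≤
      ρ * ((univ : Finset (Coloring n k)).filter Q).card := by
  have hpos : (0 : ℝ) < Fintype.card (Perm (Fin k)) := by
    exact_mod_cast Fintype.card_pos
  have h1 : (((univ : Finset (Coloring n k)).filter fun c => P c ∧ Q c).card : ℝ) *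
      Fintype.card (Perm (Fin k)) ≤
      (ρ * ((univ : Finset (Coloring n k)).filter Q).card) * Fintype.card (Perm (Fin k)) := by
    have h2 := fiber_card v P Q hQ
    have h3 : (((univ : Finset (Coloring n k)).filter fun c => P c ∧ Q c).card : ℝ) *
        Fintype.card (Perm (Fin k)) = ∑ c ∈ (univ : Finset (Coloring n k)).filter Q,
          (((univ : Finset (Perm (Fin k))).filter fun τ => P (update c v τ)).card : ℝ) := by
      exact_mod_cast h2
    rw [h3]
    calc ∑ c ∈ (univ : Finset (Coloring n k)).filter Q,
          (((univ : Finset (Perm (Fin k))).filter fun τ => P (update c v τ)).card : ℝ)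
        ≤ ∑ c ∈ (univ : Finset (Coloring n k)).filter Q, ρ * Fintype.card (Perm (Fin k)) :=
          sum_le_sum fun c hc => h c (mem_filter.1 hc).2
      _ = _ := by
          rw [sum_const, nsmul_eq_mul]
          ring
  exact le_of_mul_le_mul_right h1 hpos

theorem fiber_le' (v : Fin n) (P : Coloring n k → Prop) (ρ : ℝ)
    (h : ∀ c, (((univ : Finset (Perm (Fin k))).filter fun τ => P (update c v τ)).card : ℝ) ≤
      ρ * Fintype.card (Perm (Fin k))) :
    (((univ : Finset (Coloring n k)).filter fun c => P c).card : ℝ) ≤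
      ρ * Fintype.card (Coloring n k) := by
  have := fiber_le v P (fun _ => True) (fun _ _ => Iff.rfl) ρ fun c _ => h c
  simpa using this

/-! ### The counting function -/

/-- The number of elements with the property `P`. -/
noncomputable def cnt {α : Type*} [Fintype α] (P : α → Prop) : ℕ := (univ.filter P).card

theorem cnt_eq {α : Type*} [Fintype α] (P : α → Prop) [DecidablePred P] :
    cnt P = (univ.filter P).card := by
  unfold cnt
  congr

theorem cnt_congr {α : Type*} [Fintype α] {P Q : α → Prop} (h : ∀ x, P x ↔ Q x) :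
    cnt P = cnt Q := by
  rw [show P = Q from funext fun x => propext (h x)]

theorem cnt_mono {α : Type*} [Fintype α] {P Q : α → Prop} (h : ∀ x, P x → Q x) :
    cnt P ≤ cnt Q := card_le_card (monotone_filter_right _ fun x _ => h x)

theorem cnt_fiber_le (v : Fin n) (P Q : Coloring n k → Prop)
    (hQ : ∀ c τ, Q (update c v τ) ↔ Q c) (ρ : ℝ)
    (h : ∀ c, Q c → ((cnt fun τ : Perm (Fin k) => P (update c v τ) : ℕ) : ℝ) ≤
      ρ * Fintype.card (Perm (Fin k))) :
    ((cnt fun c : Coloring n k => P c ∧ Q c : ℕ) : ℝ) ≤ ρ * (cnt Q : ℕ) := by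
  have := fiber_le v P Q hQ ρ h
  rw [cnt_eq, cnt_eq]
  exact this

theorem cnt_fiber_le' (v : Fin n) (P : Coloring n k → Prop) (ρ : ℝ)
    (h : ∀ c, ((cnt fun τ : Perm (Fin k) => P (update c v τ) : ℕ) : ℝ) ≤
      ρ * Fintype.card (Perm (Fin k))) :
    ((cnt P : ℕ) : ℝ) ≤ ρ * Fintype.card (Coloring n k) :=
  fiber_le' v P ρ h

theorem cnt_fiber_card (v : Fin n) (P : Coloring n k → Prop) :
    cnt P * Fintype.card (Perm (Fin k)) =
      ∑ c : Coloring n k, cnt fun τ : Perm (Fin k) => P (update c v τ) := by
  have h1 := fiber_card v P (fun _ : Coloring n k => True) (fun _ _ => Iff.rfl)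
  simp only [and_true, filter_true] at h1
  exact h1

end Pool.Agent.H10.Sync
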