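import Mathlib

/-!
# Out-regular digraphs, colorings, the synchronizing ratio: definitions
-/

namespace Pool.Agent.H10.Sync

open Finset

/-- A `k`-out-regular directed multigraph on the vertex set `Fin n`: the `k` (distinguishable) edges
leaving each vertex `v` are indexed by `Fin k`, and `G v e` is the head of the edge `e` of `v`. -/
abbrev OutRegular (n k : ℕ) := Fin n → Fin k → Fin n

/-- A coloring assigns to the `k` edges leaving each vertex the `k` colors bijectively. -/
abbrev Coloring (n k : ℕ) := Fin n → Equiv.Perm (Fin k)

/-- The transition function of the automaton defined by a coloring: the state `v` moves along the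
edge of color `x`. -/
def step {n k : ℕ} (G : OutRegular n k) (c : Coloring n k) (v : Fin n) (x : Fin k) : Fin n :=
  G v ((c v).symm x)

/-- A coloring is synchronizing if some word takes all states to the same state. -/
def Synchronizing {n k : ℕ} (G : OutRegular n k) (c : Coloring n k) : Prop :=
  ∃ (w : List (Fin k)) (p : Fin n), ∀ q, w.foldl (step G c) q = p

open Classical in
/-- The synchronizing ratio: the number of synchronizing colorings divided by `(k!) ^ n`. -/
noncomputable def syncRatio {n k : ℕ} (G : OutRegular n k) : ℝ :=
  ((univ : Finset (Coloring n k)).filter fun c => Synchronizing G c).card / (k.factorial : ℝ) ^ n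

/-- `Reach G l u v`: there is a directed walk of length `l` from `u` to `v`. -/
def Reach {n k : ℕ} (G : OutRegular n k) : ℕ → Fin n → Fin n → Prop
  | 0, u, v => u = v
  | l + 1, u, v => ∃ e, Reach G l (G u e) v

/-- `IsCycle G l`: there is a directed cycle of length `l ≥ 1` (no repeated vertices). -/
def IsCycle {n k : ℕ} (G : OutRegular n k) (l : ℕ) : Prop :=
  1 ≤ l ∧ ∃ f : ℕ → Fin n, (∀ i < l, ∃ e, G (f i) e = f (i + 1)) ∧ f l = f 0 ∧
    ∀ i < l, ∀ j < l, f i = f j → i = j

/-- Primitive digraphs: strongly connected, and the greatest common divisor of the lengths of the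
directed cycles is `1`. -/
def Primitive {n k : ℕ} (G : OutRegular n k) : Prop :=
  (∀ u v, ∃ l, Reach G l u v) ∧ ∀ d, (∀ l, IsCycle G l → d ∣ l) → d = 1

/-- The set of out-neighbours of `v`. -/
def outNbrs {n k : ℕ} (G : OutRegular n k) (v : Fin n) : Finset (Fin n) := univ.image (G v)

/-- The branching vertices: those with at least two out-neighbours. -/
def branching {n k : ℕ} (G : OutRegular n k) : Finset (Fin n) :=
  univ.filter fun v => 1 < (outNbrs G v).card

end Pool.Agent.H10.Sync
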