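import Pool.Agent.H10.Sync.Count

/-! # Coincidence events and avoidance events -/

namespace Pool.Agent.H10.Sync

open Finset Function Equiv

open scoped Classical

variable {n k : ℕ}

/-- The half-edges `h` and `g` get the same color. -/
def Coin (c : Coloring n k) (h g : Fin n × Fin k) : Prop := c h.1 h.2 = c g.1 g.2

/-- Two coincidences which are sufficiently independent. -/
def Adm (h1 g1 h2 g2 : Fin n × Fin k) : Prop :=
  g1.1 ≠ h1.1 ∧ g2.1 ≠ h2.1 ∧ h1 ≠ h2 ∧ (h1.1 ≠ h2.1 → g1 ≠ h2 ∧ g2 ≠ h1)

theorem perm_one_eq (e y : Fin k) :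
    (cnt fun τ : Perm (Fin k) => τ e = y) * k = Fintype.card (Perm (Fin k)) := by
  rw [cnt_eq]
  exact card_perm_apply e y

theorem perm_one_le (hk : 2 ≤ k) (e y : Fin k) :
    ((cnt fun τ : Perm (Fin k) => τ e = y : ℕ) : ℝ) ≤
      (1 / (k : ℝ)) * Fintype.card (Perm (Fin k)) := by
  have h' : ((cnt fun τ : Perm (Fin k) => τ e = y : ℕ) : ℝ) * k =
      Fintype.card (Perm (Fin k)) := by exact_mod_cast perm_one_eq e y
  have hk0 : (0 : ℝ) < k := by exact_mod_cast (show 0 < k by omega)
  rw [← h']
  apply le_of_eq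
  field_simp

theorem perm_two_le (hk : 2 ≤ k) {e e' : Fin k} (he : e ≠ e') (y y' : Fin k) :
    ((cnt fun τ : Perm (Fin k) => τ e = y ∧ τ e' = y' : ℕ) : ℝ) ≤
      (1 / ((k : ℝ) * (k - 1))) * Fintype.card (Perm (Fin k)) := by
  have h := card_perm_apply₂ he y y'
  rw [← cnt_eq] at h
  have hk0 : (0 : ℝ) < k := by exact_mod_cast (show 0 < k by omega)
  have hk1 : (0 : ℝ) < (k : ℝ) - 1 := by
    have : (2 : ℝ) ≤ k := by exact_mod_cast hk
    linarith
  have h' : ((cnt fun τ : Perm (Fin k) => τ e = y ∧ τ e' = y' : ℕ) : ℝ) *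
      ((k : ℝ) * (k - 1)) ≤ Fintype.card (Perm (Fin k)) := by
    have h2 : (((cnt fun τ : Perm (Fin k) => τ e = y ∧ τ e' = y') *
        (k * (k - 1)) : ℕ) : ℝ) ≤ Fintype.card (Perm (Fin k)) := by exact_mod_cast h
    rw [Nat.cast_mul, Nat.cast_mul, Nat.cast_sub (by omega), Nat.cast_one] at h2
    exact h2
  rw [one_div, ← div_eq_inv_mul, le_div_iff₀ (by positivity)]
  exact h'

theorem coin_one_le (hk : 2 ≤ k) {h g : Fin n × Fin k} (hg : g.1 ≠ h.1) :
    ((cnt fun c : Coloring n k => Coin c h g : ℕ) : ℝ) ≤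
      (1 / (k : ℝ)) * Fintype.card (Coloring n k) := by
  apply cnt_fiber_le' h.1
  intro c
  have h1 : (cnt fun τ : Perm (Fin k) => Coin (update c h.1 τ) h g) =
      (cnt fun τ : Perm (Fin k) => τ h.2 = c g.1 g.2) := by
    apply cnt_congr
    intro τ
    rw [Coin, update_self, update_of_ne hg]
  rw [h1]
  exact perm_one_le hk _ _

theorem coin_pair_le (hk : 2 ≤ k) {h1 g1 h2 g2 : Fin n × Fin k} (hA : Adm h1 g1 h2 g2) :
    ((cnt fun c : Coloring n k => Coin c h1 g1 ∧ Coin c h2 g2 : ℕ) : ℝ) ≤
      (1 / ((k : ℝ) * (k - 1))) * Fintype.card (Coloring n k) := by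
  obtain ⟨a1, a2, a3, a4⟩ := hA
  have hk0 : (0 : ℝ) < k := by exact_mod_cast (show 0 < k by omega)
  have hk1 : (0 : ℝ) < (k : ℝ) - 1 := by
    have : (2 : ℝ) ≤ k := by exact_mod_cast hk
    linarith
  by_cases hv : h2.1 = h1.1
  · apply cnt_fiber_le' h1.1
    intro c
    have hne : h1.2 ≠ h2.2 := fun h => a3 (Prod.ext hv.symm h)
    have e1 : (cnt fun τ : Perm (Fin k) =>
        Coin (update c h1.1 τ) h1 g1 ∧ Coin (update c h1.1 τ) h2 g2) =
        (cnt fun τ : Perm (Fin k) => τ h1.2 = c g1.1 g1.2 ∧ τ h2.2 = c g2.1 g2.2) := by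
      apply cnt_congr
      intro τ
      rw [Coin, Coin, hv, update_self, update_of_ne a1, update_of_ne (by rw [← hv]; exact a2)]
    rw [e1]
    exact perm_two_le hk hne _ _
  · obtain ⟨a5, a6⟩ := a4 (Ne.symm hv)
    by_cases hg : g2.1 = h1.1
    · apply cnt_fiber_le' h1.1
      intro c
      have hne : h1.2 ≠ g2.2 := fun h => a6 (Prod.ext hg h.symm)
      have e1 : (cnt fun τ : Perm (Fin k) =>
          Coin (update c h1.1 τ) h1 g1 ∧ Coin (update c h1.1 τ) h2 g2) =
          (cnt fun τ : Perm (Fin k) => τ h1.2 = c g1.1 g1.2 ∧ τ g2.2 = c h2.1 h2.2) := by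
        apply cnt_congr
        intro τ
        rw [Coin, Coin, hg, update_self, update_of_ne a1, update_of_ne hv]
        constructor
        · exact fun h => ⟨h.1, h.2.symm⟩
        · exact fun h => ⟨h.1, h.2.symm⟩
      rw [e1]
      exact perm_two_le hk hne _ _
    · have h3 := cnt_fiber_le h1.1 (fun c => Coin c h1 g1) (fun c => Coin c h2 g2)
        (fun c τ => by
          simp only [Coin]
          rw [update_of_ne hv, update_of_ne hg]) (1 / (k : ℝ)) fun c _ => by
          have e1 : (cnt fun τ : Perm (Fin k) => Coin (update c h1.1 τ) h1 g1) =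
              (cnt fun τ : Perm (Fin k) => τ h1.2 = c g1.1 g1.2) := by
            apply cnt_congr
            intro τ
            rw [Coin, update_self, update_of_ne a1]
          rw [e1]
          exact perm_one_le hk _ _
      have h4 := coin_one_le (n := n) hk a2
      have hcard : (0 : ℝ) ≤ Fintype.card (Coloring n k) := Nat.cast_nonneg _
      calc ((cnt fun c : Coloring n k => Coin c h1 g1 ∧ Coin c h2 g2 : ℕ) : ℝ)
          ≤ 1 / (k : ℝ) * (cnt fun c : Coloring n k => Coin c h2 g2 : ℕ) := h3
        _ ≤ 1 / (k : ℝ) * (1 / (k : ℝ) * Fintype.card (Coloring n k)) := by gcongr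
        _ = 1 / ((k : ℝ) * k) * Fintype.card (Coloring n k) := by
            field_simp
        _ ≤ 1 / ((k : ℝ) * (k - 1)) * Fintype.card (Coloring n k) := by
            gcongr
            linarith

/-- The exact count for one coincidence. -/
theorem coin_one_eq {h g : Fin n × Fin k} (hg : g.1 ≠ h.1) :
    (cnt fun c : Coloring n k => Coin c h g) * k = Fintype.card (Coloring n k) := by
  have h1 := cnt_fiber_card h.1 (fun c : Coloring n k => Coin c h g)
  have h2 : ∀ c : Coloring n k,
      (cnt fun τ : Perm (Fin k) => Coin (update c h.1 τ) h g) * k =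
      Fintype.card (Perm (Fin k)) := by
    intro c
    have e1 : (cnt fun τ : Perm (Fin k) => Coin (update c h.1 τ) h g) =
        (cnt fun τ : Perm (Fin k) => τ h.2 = c g.1 g.2) := by
      apply cnt_congr
      intro τ
      rw [Coin, update_self, update_of_ne hg]
    rw [e1]
    exact perm_one_eq _ _
  have hpos : 0 < Fintype.card (Perm (Fin k)) := Fintype.card_pos
  apply Nat.eq_of_mul_eq_mul_right hpos
  calc (cnt fun c : Coloring n k => Coin c h g) * k * Fintype.card (Perm (Fin k))
      = ((cnt fun c : Coloring n k => Coin c h g) * Fintype.card (Perm (Fin k))) * k := by ring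
    _ = ∑ c : Coloring n k, (cnt fun τ : Perm (Fin k) => Coin (update c h.1 τ) h g) * k := by
          rw [h1, sum_mul]
    _ = ∑ c : Coloring n k, Fintype.card (Perm (Fin k)) :=
          Finset.sum_congr rfl fun c _ => h2 c
    _ = Fintype.card (Coloring n k) * Fintype.card (Perm (Fin k)) := by
          rw [sum_const, card_univ, smul_eq_mul]

/-- The multiplicity of the head `s` at the vertex `v`. -/
def mult (G : OutRegular n k) (v s : Fin n) : ℕ :=
  ((univ : Finset (Fin k)).filter fun e => G v e = s).card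

/-- The colors of the edges `u → s` avoid the colors of the edges `v → t`. -/
theorem avoid_le (hk : 1 ≤ k) (G : OutRegular n k) {u v : Fin n} (huv : v ≠ u) (s t : Fin n) :
    ((cnt fun c : Coloring n k => ∀ g g', G u g = s → G v g' = t → c u g ≠ c v g' : ℕ) : ℝ) ≤
      (((k : ℝ) - mult G v t) / k) ^ mult G u s * Fintype.card (Coloring n k) := by
  apply cnt_fiber_le' u
  intro c
  have hk0 : (0 : ℝ) < k := by exact_mod_cast (show 0 < k by omega)
  set F := (univ : Finset (Fin k)).filter fun e => G u e = s with hF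
  set B := ((univ : Finset (Fin k)).filter fun e => G v e = t).image (c v) with hB
  have hBcard : B.card = mult G v t := by
    rw [hB, card_image_of_injective _ (c v).injective, mult]
  have e1 : (cnt fun τ : Perm (Fin k) => ∀ g g', G u g = s → G v g' = t →
      update c u τ u g ≠ update c u τ v g') = (cnt fun τ : Perm (Fin k) => ∀ f ∈ F, τ f ∉ B) := by
    apply cnt_congr
    intro τ
    constructor
    · intro h f hf hmem
      rw [hF, mem_filter] at hf
      rw [hB, mem_image] at hmem
      obtain ⟨g', hg', hg''⟩ := hmem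
      rw [mem_filter] at hg'
      have := h f g' hf.2 hg'.2
      rw [update_self, update_of_ne huv] at this
      exact this hg''.symm
    · intro h g g' hg hg'
      rw [update_self, update_of_ne huv]
      intro heq
      apply h g (by rw [hF, mem_filter]; exact ⟨mem_univ _, hg⟩)
      rw [hB, mem_image]
      exact ⟨g', by rw [mem_filter]; exact ⟨mem_univ _, hg'⟩, heq.symm⟩
  rw [e1, cnt_eq]
  have h1 := card_perm_avoid B F
  rw [hBcard] at h1
  have hFcard : F.card = mult G u s := rfl
  rw [hFcard] at h1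
  rw [div_pow, div_mul_eq_mul_div, le_div_iff₀ (by positivity)]
  exact h1

end Pool.Agent.H10.Sync
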