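import Pool.Agent.H10.Sync.Special
import Pool.Agent.H10.Sync.Events

/-! # Non-synchronizing colorings: two coincidences or the special case -/

namespace Pool.Agent.H10.Sync

open Finset Function Equiv

variable {n k : ℕ}

/-- The edges of frequent heads of `u` meet the main colors of `v`. -/
def GoodC (G : OutRegular n k) (a : Fin n → Fin n) (T : ℕ) (c : Coloring n k) : Prop :=
  ∀ u ∈ branching G, ∀ v ∈ branching G, u ≠ v → ∀ s ∈ outNbrs G u, T ≤ mult G u s →
    ∃ g g', G u g = s ∧ G v g' = a v ∧ c u g = c v g'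

/-- The half-edges of small multiplicity at branching vertices. -/
def rare (G : OutRegular n k) (T : ℕ) : Finset (Fin n × Fin k) :=
  univ.filter fun h => h.1 ∈ branching G ∧ mult G h.1 (G h.1 h.2) < T

theorem mem_branching_of_ne {G : OutRegular n k} {v : Fin n} {e e' : Fin k}
    (h : G v e ≠ G v e') : v ∈ branching G := by
  rw [branching, mem_filter]
  refine ⟨mem_univ _, ?_⟩
  rw [one_lt_card]
  exact ⟨G v e, mem_image_of_mem _ (mem_univ _), G v e', mem_image_of_mem _ (mem_univ _), h⟩

/-- A set of canonical half-edges. -/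
structure Canon (G : OutRegular n k) where
  S : Finset (Fin n × Fin k)
  one : ∀ v ∈ branching G, ∀ e, ∃ e1, G v e1 = G v e ∧ (v, e1) ∈ S
  two : ∀ v ∈ branching G, ∀ e e', e ≠ e' → G v e = G v e' →
    ∃ e1 e2, e1 ≠ e2 ∧ G v e1 = G v e ∧ G v e2 = G v e ∧ (v, e1) ∈ S ∧ (v, e2) ∈ S

theorem exists_special_or_pair {G : OutRegular n k} (hG : Primitive G) {a : Fin n → Fin n}
    (ha : ∀ v, ∃ e, G v e = a v) {T : ℕ} (hT : 2 ≤ T) (K : Canon G) {c : Coloring n k}
    (hc : GoodC G a T c) (hns : ¬ IsSync (step G c)) :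
    Nonempty (SpecialData G) ∨ ∃ h1 ∈ K.S, ∃ h2 ∈ K.S, ∃ g1 ∈ rare G T, ∃ g2 ∈ rare G T,
      Adm h1 g1 h2 g2 ∧ Coin c h1 g1 ∧ Coin c h2 g2 := by
  by_contra hcon
  push Not at hcon
  obtain ⟨hnsp, H⟩ := hcon
  set W : Fin n → Fin k → Prop := fun v e => ¬ Stab (step G c) (G v e) (a v) with hW
  -- branching
  have hbr : ∀ v e, W v e → v ∈ branching G := by
    intro v e hve
    obtain ⟨e0, he0⟩ := ha v
    apply mem_branching_of_ne (e := e) (e' := e0)
    intro h
    apply hve
    rw [h, he0]
    exact Stab.refl _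
  -- the star property
  have star : ∀ v e, W v e → ∃ u f, (u, f) ∈ rare G T ∧ u ≠ v ∧ c v e = c u f := by
    intro v e hve
    by_contra hno
    apply hve
    have h1 := stab_of_pairwise' hG c v (a v) (c v e) fun u hu => by
      have huv : u ≠ v := fun h => hu (by rw [h]; exact Stab.refl _)
      obtain ⟨f, hf⟩ := (c u).surjective (c v e)
      by_cases hub : u ∈ branching G
      · have hfr : T ≤ mult G u (G u f) := by
          by_contra hlt
          apply hno
          refine ⟨u, f, ?_, huv, hf.symm⟩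
          rw [rare, mem_filter]
          exact ⟨mem_univ _, hub, not_le.1 hlt⟩
        obtain ⟨g, g', hg, hg', hgg⟩ := hc u hub v (hbr v e hve) huv (G u f)
          (mem_image_of_mem _ (mem_univ _)) hfr
        refine ⟨c v g', ?_, ?_⟩
        · rw [step_color, hg']
        · rw [← hgg, step_color, hg, ← hf, step_color]
          exact Stab.refl _
      · obtain ⟨e0, he0⟩ := ha v
        refine ⟨c v e0, by rw [step_color, he0], ?_⟩
        have : step G c u (c v e0) = step G c u (c v e) := by
          by_contra hne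
          exact hub (mem_branching_of_ne hne)
        rw [this]
        exact Stab.refl _
    rwa [step_color] at h1
  have W_congr : ∀ v e e', G v e' = G v e → W v e → W v e' := by
    intro v e e' h hve
    simp only [hW] at hve ⊢
    rwa [h]
  -- existence
  have hex : ∃ v e, W v e := by
    by_contra hno
    push Not at hno
    apply hns
    apply sync_of_all_stab hG
    intro v e e'
    have h1 : Stab (step G c) (G v e) (a v) := not_not.1 (hno v e)
    have h2 : Stab (step G c) (G v e') (a v) := not_not.1 (hno v e')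
    exact h1.trans h2.symm
  -- a second vertex
  have hsecond : ∀ v e, W v e → ∃ v' e', v' ≠ v ∧ W v' e' := by
    intro v e hve
    by_contra hno
    push Not at hno
    apply hve
    obtain ⟨e0, he0⟩ := ha v
    have h1 := stab_of_pairwise' hG c v (a v) (c v e) fun u hu => by
      have huv : u ≠ v := fun h => hu (by rw [h]; exact Stab.refl _)
      refine ⟨c v e0, by rw [step_color, he0], ?_⟩
      have h2 : ∀ x, Stab (step G c) (step G c u x) (a u) := fun x =>
        not_not.1 (hno u ((c u).symm x) huv)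
      exact (h2 _).trans (h2 _).symm
    rwa [step_color] at h1
  -- uniqueness of the bad edge at a vertex
  have pairs : ∀ v e e', e ≠ e' → W v e → W v e' → (v, e) ∈ K.S → (v, e') ∈ K.S → False := by
    intro v e e' hne he he' hS hS'
    obtain ⟨u, f, hf, huv, hcf⟩ := star v e he
    obtain ⟨u', f', hf', huv', hcf'⟩ := star v e' he'
    exact H (v, e) hS (v, e') hS' (u, f) hf (u', f') hf'
      ⟨huv, huv', fun h => hne (Prod.ext_iff.1 h).2, fun h => absurd rfl h⟩ hcf hcf'
  have huniq : ∀ v e e', W v e → W v e' → e = e' := by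
    intro v e e' he he'
    by_contra hne
    have hv := hbr v e he
    by_cases hh : G v e = G v e'
    · obtain ⟨e1, e2, h12, h1, h2, hS1, hS2⟩ := K.two v hv e e' hne hh
      exact pairs v e1 e2 h12 (W_congr v e e1 h1 he) (W_congr v e e2 h2 he) hS1 hS2
    · obtain ⟨e1, h1, hS1⟩ := K.one v hv e
      obtain ⟨e2, h2, hS2⟩ := K.one v hv e'
      have h12 : e1 ≠ e2 := by
        intro h
        rw [h] at h1
        exact hh (h1.symm.trans h2)
      exact pairs v e1 e2 h12 (W_congr v e e1 h1 he) (W_congr v e' e2 h2 he') hS1 hS2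
  -- bad edges are canonical and rare
  have hcan : ∀ v e, W v e → (v, e) ∈ K.S := by
    intro v e he
    obtain ⟨e1, h1, hS1⟩ := K.one v (hbr v e he) e
    have := huniq v e1 e (W_congr v e e1 h1 he) he
    rwa [this] at hS1
  have hrare : ∀ v e, W v e → (v, e) ∈ rare G T := by
    intro v e he
    rw [rare, mem_filter]
    refine ⟨mem_univ _, hbr v e he, lt_of_lt_of_le ?_ hT⟩
    have h1 : ((univ : Finset (Fin k)).filter fun e' => G v e' = G v e) ⊆ {e} := by
      intro e' he'
      rw [mem_filter] at he'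
      rw [mem_singleton]
      exact huniq v e' e (W_congr v e e' he'.2 he) he
    have h2 := card_le_card h1
    rw [card_singleton] at h2
    have h3 : mult G v (G v e) ≤ 1 := h2
    show mult G v (G v e) < 2
    omega
  -- all bad edges have the same color
  have hcol : ∀ v v' e e', v ≠ v' → W v e → W v' e' → c v e = c v' e' := by
    intro v v' e e' hvv he he'
    by_contra hne
    obtain ⟨u, f, hf, huv, hcf⟩ := star v e he
    obtain ⟨u', f', hf', huv', hcf'⟩ := star v' e' he'
    refine H (v, e) (hcan v e he) (v', e') (hcan v' e' he') (u, f) hf (u', f') hf'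
      ⟨huv, huv', fun h => hvv (Prod.ext_iff.1 h).1, fun _ => ⟨fun h => ?_, fun h => ?_⟩⟩ hcf hcf'
    · obtain ⟨h1, h2⟩ := Prod.ext_iff.1 h
      simp only at h1 h2
      rw [h1, h2] at hcf
      exact hne hcf
    · obtain ⟨h1, h2⟩ := Prod.ext_iff.1 h
      simp only at h1 h2
      rw [h1, h2] at hcf'
      exact hne hcf'.symm
  -- at most two vertices
  have hthree : ∀ v1 v2 v3 e1 e2 e3, v1 ≠ v2 → v1 ≠ v3 → v2 ≠ v3 → W v1 e1 → W v2 e2 →
      W v3 e3 → False := by
    intro v1 v2 v3 e1 e2 e3 h12 h13 h23 w1 w2 w3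
    exact H (v2, e2) (hcan _ _ w2) (v3, e3) (hcan _ _ w3) (v1, e1) (hrare _ _ w1) (v1, e1)
      (hrare _ _ w1) ⟨h12, h13, fun h => h23 (Prod.ext_iff.1 h).1,
        fun _ => ⟨fun h => h13 (Prod.ext_iff.1 h).1, fun h => h12 (Prod.ext_iff.1 h).1⟩⟩
      (hcol _ _ _ _ h12.symm w2 w1) (hcol _ _ _ _ h13.symm w3 w1)
  obtain ⟨p, ep, hp⟩ := hex
  obtain ⟨q, eq, hqp, hq⟩ := hsecond p ep hp
  refine hnsp.false
    { c0 := c
      a := a
      p := p
      q := q
      ep := ep
      eq := eq
      hns := hns
      hpq := hqp.symm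
      hp := hp
      hq := hq
      hp' := fun e he => ?_
      hq' := fun e he => ?_
      ho := fun v e hv hv' => ?_ }
  · by_contra hne
    exact he (huniq p e ep hne hp)
  · by_contra hne
    exact he (huniq q e eq hne hq)
  · by_contra hne
    exact hthree p q v ep eq e hqp.symm hv.symm hv'.symm hp hq hne

end Pool.Agent.H10.Sync
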