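import Pool.Agent.H10.Sync.Defs
import Pool.Agent.H10.Sync.Automaton

/-! # Walks, words and primitivity -/

namespace Pool.Agent.H10.Sync

open Finset

variable {n k : ℕ} {G : OutRegular n k}

theorem synchronizing_iff (c : Coloring n k) : Synchronizing G c ↔ IsSync (step G c) := Iff.rfl

theorem Reach.trans {l m : ℕ} {u v z : Fin n} (h : Reach G l u v) (h' : Reach G m v z) :
    Reach G (l + m) u z := by
  induction l generalizing u with
  | zero =>
    have : u = v := h
    rw [this, zero_add]
    exact h'
  | succ l ih =>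
    obtain ⟨e, he⟩ := h
    rw [show l + 1 + m = (l + m) + 1 by ring]
    exact ⟨e, ih he⟩

theorem step_color (c : Coloring n k) (v : Fin n) (e : Fin k) : step G c v (c v e) = G v e := by
  simp [step]

theorem Reach.exists_word {l : ℕ} {u v : Fin n} (h : Reach G l u v) (c : Coloring n k) :
    ∃ w : List (Fin k), w.length = l ∧ run (step G c) u w = v := by
  induction l generalizing u with
  | zero => exact ⟨[], rfl, h⟩
  | succ l ih =>
    obtain ⟨e, he⟩ := h
    obtain ⟨w, hw1, hw2⟩ := ih he
    refine ⟨c u e :: w, by simp [hw1], ?_⟩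
    rw [run_cons, step_color, hw2]

theorem conn_of_primitive (hG : Primitive G) (c : Coloring n k) (u v : Fin n) :
    ∃ w, run (step G c) u w = v := by
  obtain ⟨l, hl⟩ := hG.1 u v
  obtain ⟨w, -, hw⟩ := hl.exists_word c
  exact ⟨w, hw⟩

theorem reach_of_path (f : ℕ → Fin n) (l : ℕ) (h : ∀ i < l, ∃ e, G (f i) e = f (i + 1)) (i : ℕ)
    (hi : i ≤ l) : Reach G (l - i) (f i) (f l) := by
  induction hd : l - i generalizing i with
  | zero =>
    have : i = l := by omega
    rw [this]
    exact rfl
  | succ d ih =>
    obtain ⟨e, he⟩ := h i (by omega)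
    refine ⟨e, ?_⟩
    rw [he]
    exact ih (i + 1) (by omega) (by omega)

/-- The submonoid of lengths of closed walks at `v`. -/
def loops (G : OutRegular n k) (v : Fin n) : AddSubmonoid ℕ where
  carrier := {l | Reach G l v v}
  zero_mem' := rfl
  add_mem' := fun h h' => Reach.trans h h'

theorem exists_large_loops (hG : Primitive G) (v : Fin n) : ∃ N, ∀ m ≥ N, Reach G m v v := by
  obtain ⟨N, hN⟩ := Nat.exists_mem_closure_of_ge (s := {l | Reach G l v v})
  have hd : Nat.setGcd {l | Reach G l v v} = 1 := by
    apply hG.2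
    rintro l ⟨-, f, hf, hf0, -⟩
    have h0 : Reach G l (f 0) (f 0) := by
      have := reach_of_path f l hf 0 (Nat.zero_le _)
      rw [Nat.sub_zero, hf0] at this
      exact this
    obtain ⟨a, ha⟩ := hG.1 v (f 0)
    obtain ⟨b, hb⟩ := hG.1 (f 0) v
    have h1 : Nat.setGcd {l | Reach G l v v} ∣ a + b := Nat.setGcd_dvd_of_mem (ha.trans hb)
    have h2 : Nat.setGcd {l | Reach G l v v} ∣ (a + l) + b :=
      Nat.setGcd_dvd_of_mem ((ha.trans h0).trans hb)
    have h3 : (a + l) + b = (a + b) + l := by ring
    rw [h3] at h2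
    exact (Nat.dvd_add_right h1).1 h2
  refine ⟨N, fun m hm => ?_⟩
  have h1 := hN m hm (by rw [hd]; exact one_dvd _)
  have h2 : AddSubmonoid.closure {l | Reach G l v v} ≤ loops G v :=
    AddSubmonoid.closure_le.2 fun l hl => hl
  exact h2 h1

theorem exists_meet (hG : Primitive G) (c : Coloring n k) (u v : Fin n) :
    ∃ w1 w2 : List (Fin k), w1.length = w2.length ∧
      run (step G c) u w1 = run (step G c) v w2 := by
  obtain ⟨N, hN⟩ := exists_large_loops hG v
  obtain ⟨a, ha⟩ := hG.1 u v
  obtain ⟨w1, h1, h1'⟩ := (ha.trans (hN N le_rfl)).exists_word c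
  obtain ⟨w2, h2, h2'⟩ := (hN (a + N) (by omega)).exists_word c
  exact ⟨w1, w2, by rw [h1, h2], by rw [h1', h2']⟩

theorem nonempty_of_primitive (hG : Primitive G) : Nonempty (Fin n) := by
  rcases Nat.eq_zero_or_pos n with h | h
  · subst h
    have := hG.2 2 (by
      rintro l ⟨-, f, -⟩
      exact (f 0).elim0)
    omega
  · exact ⟨⟨0, h⟩⟩

/-- A coloring in which all edges leaving a vertex have stably equivalent heads is
synchronizing. -/
theorem sync_of_all_stab (hG : Primitive G) (c : Coloring n k)
    (h : ∀ v e e', Stab (step G c) (G v e) (G v e')) : IsSync (step G c) := by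
  have := nonempty_of_primitive hG
  exact isSync_of_irrelevant (fun v x y => h v _ _) (exists_meet hG c)

/-- The clique lemma for colorings. -/
theorem stab_of_pairwise' (hG : Primitive G) (c : Coloring n k) (v t : Fin n) (x : Fin k)
    (h : ∀ u, ¬ Stab (step G c) u v →
      ∃ y, step G c v y = t ∧ Stab (step G c) (step G c u y) (step G c u x)) :
    Stab (step G c) (step G c v x) t :=
  stab_of_pairwise (conn_of_primitive hG c) v t x h

end Pool.Agent.H10.Sync
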