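import Pool.Agent.H10.Sync.Dichotomy

/-! # The dichotomy for the synchronizing ratio -/

namespace Pool.Agent.H10.Sync

open Finset Function Equiv

variable {n k : ℕ}

theorem mem_outNbrs {G : OutRegular n k} (v : Fin n) (e : Fin k) : G v e ∈ outNbrs G v :=
  mem_image_of_mem _ (mem_univ _)

theorem sum_mult (G : OutRegular n k) (v : Fin n) : ∑ s ∈ outNbrs G v, mult G v s = k := by
  have h := Finset.card_eq_sum_card_fiberwise (f := fun e : Fin k => G v e)
    (s := univ) (t := outNbrs G v) fun e _ => mem_outNbrs v e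
  rw [card_univ, Fintype.card_fin] at h
  exact h.symm

/-- A main head of large multiplicity. -/
theorem exists_main (hk : 1 ≤ k) (G : OutRegular n k) (v : Fin n) :
    ∃ t, (∃ e, G v e = t) ∧ k ≤ (outNbrs G v).card * mult G v t := by
  have hne : (outNbrs G v).Nonempty := ⟨G v ⟨0, hk⟩, mem_outNbrs v _⟩
  obtain ⟨t, ht, hmax⟩ := Finset.exists_max_image (outNbrs G v) (mult G v) hne
  refine ⟨t, ?_, ?_⟩
  · obtain ⟨e, -, he⟩ := mem_image.1 ht
    exact ⟨e, he⟩
  · calc k = ∑ s ∈ outNbrs G v, mult G v s := (sum_mult G v).symm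
      _ ≤ ∑ s ∈ outNbrs G v, mult G v t := sum_le_sum fun s hs => hmax s hs
      _ = (outNbrs G v).card * mult G v t := by rw [sum_const, smul_eq_mul]

theorem card_rare_le (G : OutRegular n k) {D : ℕ} (hD : ∀ v, (outNbrs G v).card ≤ D) (T : ℕ) :
    (rare G T).card ≤ (branching G).card * (D * T) := by
  have h1 : (rare G T).card = ∑ v ∈ branching G,
      ((univ : Finset (Fin k)).filter fun e => mult G v (G v e) < T).card := by
    rw [Finset.card_eq_sum_card_fiberwise (f := fun h : Fin n × Fin k => h.1)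
      (t := branching G)]
    · apply Finset.sum_congr rfl
      intro v hv
      apply Finset.card_nbij' (fun h : Fin n × Fin k => h.2) (fun e => (v, e))
      · intro h hh
        simp only [rare, coe_filter, mem_filter, mem_univ, true_and, Set.mem_ofPred_eq] at hh ⊢
        rw [← hh.2]
        exact hh.1.2
      · intro e he
        simp only [rare, coe_filter, mem_filter, mem_univ, true_and, Set.mem_ofPred_eq] at he ⊢
        exact ⟨⟨hv, he⟩, trivial⟩
      · intro h hh
        simp only [rare, coe_filter, mem_filter, mem_univ, true_and, Set.mem_ofPred_eq] at hh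
        exact Prod.ext hh.2.symm rfl
      · intro e _
        rfl
    · intro h hh
      rw [mem_coe, rare, mem_filter] at hh
      exact hh.2.1
  rw [h1, ← smul_eq_mul, ← sum_const]
  apply sum_le_sum
  intro v _
  have h2 : ((univ : Finset (Fin k)).filter fun e => mult G v (G v e) < T).card =
      ∑ s ∈ outNbrs G v,
        (((univ : Finset (Fin k)).filter fun e => mult G v (G v e) < T).filter
          fun e => G v e = s).card :=
    Finset.card_eq_sum_card_fiberwise fun e _ => mem_outNbrs v e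
  rw [h2]
  calc ∑ s ∈ outNbrs G v,
        (((univ : Finset (Fin k)).filter fun e => mult G v (G v e) < T).filter
          fun e => G v e = s).card
      ≤ ∑ s ∈ outNbrs G v, T := by
        apply sum_le_sum
        intro s _
        by_cases hs : mult G v s < T
        · refine le_trans (card_le_card ?_) hs.le
          intro e he
          rw [mem_filter, mem_filter] at he
          rw [mem_filter]
          exact ⟨mem_univ _, he.2⟩
        · have : (((univ : Finset (Fin k)).filter fun e => mult G v (G v e) < T).filter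
              fun e => G v e = s) = ∅ := by
            apply filter_eq_empty_iff.2
            intro e he hes
            rw [mem_filter, hes] at he
            exact hs he.2
          rw [this]
          simp
    _ = (outNbrs G v).card * T := by rw [sum_const, smul_eq_mul]
    _ ≤ D * T := Nat.mul_le_mul_right _ (hD v)

theorem exists_canon (G : OutRegular n k) {D : ℕ} (hD : ∀ v, (outNbrs G v).card ≤ D) :
    ∃ K : Canon G, K.S.card ≤ (branching G).card * (D * 2) := by
  have h1 : ∀ v s, ∃ C ⊆ (univ : Finset (Fin k)).filter fun e => G v e = s,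
      C.card = min 2 (mult G v s) := fun v s =>
    Finset.exists_subset_card_eq (min_le_right _ _)
  choose C hC hCcard using h1
  set S : Finset (Fin n × Fin k) := (branching G).biUnion fun v =>
    (outNbrs G v).biUnion fun s => (C v s).image fun e => (v, e) with hS
  have hmem : ∀ v ∈ branching G, ∀ e, ∀ e1 ∈ C v (G v e), (v, e1) ∈ S := by
    intro v hv e e1 he1
    rw [hS, mem_biUnion]
    refine ⟨v, hv, ?_⟩
    rw [mem_biUnion]
    exact ⟨G v e, mem_outNbrs v e, mem_image_of_mem _ he1⟩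
  have hfib : ∀ v e, ∀ e1 ∈ C v (G v e), G v e1 = G v e := by
    intro v e e1 he1
    exact (mem_filter.1 (hC v _ he1)).2
  refine ⟨⟨S, ?_, ?_⟩, ?_⟩
  · intro v hv e
    have hpos : 0 < (C v (G v e)).card := by
      rw [hCcard]
      have : 0 < mult G v (G v e) := card_pos.2 ⟨e, by simp⟩
      omega
    obtain ⟨e1, he1⟩ := card_pos.1 hpos
    exact ⟨e1, hfib v e e1 he1, hmem v hv e e1 he1⟩
  · intro v hv e e' hne heq
    have hpos : 1 < (C v (G v e)).card := by
      rw [hCcard]
      have : 1 < mult G v (G v e) := one_lt_card.2 ⟨e, by simp, e', by simp [heq], hne⟩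
      omega
    obtain ⟨e1, he1, e2, he2, h12⟩ := one_lt_card.1 hpos
    exact ⟨e1, e2, h12, hfib v e e1 he1, hfib v e e2 he2, hmem v hv e e1 he1, hmem v hv e e2 he2⟩
  · show S.card ≤ _
    rw [hS]
    refine le_trans card_biUnion_le ?_
    rw [← smul_eq_mul, ← sum_const]
    apply sum_le_sum
    intro v _
    refine le_trans card_biUnion_le ?_
    calc ∑ s ∈ outNbrs G v, ((C v s).image fun e => (v, e)).card
        ≤ ∑ s ∈ outNbrs G v, 2 := by
          apply sum_le_sum
          intro s _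
          refine le_trans card_image_le ?_
          rw [hCcard]
          omega
      _ = (outNbrs G v).card * 2 := by rw [sum_const, smul_eq_mul]
      _ ≤ D * 2 := Nat.mul_le_mul_right _ (hD v)

theorem half_pow {D : ℕ} (hD : 1 ≤ D) : (1 - 1 / (D : ℝ)) ^ D ≤ 1 / 2 := by
  have hD0 : (0 : ℝ) < D := by exact_mod_cast hD
  have hD1 : (1 : ℝ) ≤ D := by exact_mod_cast hD
  have h1 : (2 : ℝ) ≤ (1 + 1 / (D : ℝ)) ^ D := by
    have := one_add_mul_le_pow (a := 1 / (D : ℝ)) (by
      have : (0 : ℝ) < 1 / D := by positivity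
      linarith) D
    have h2 : (D : ℝ) * (1 / D) = 1 := by field_simp
    linarith
  have h2 : (1 - 1 / (D : ℝ)) ^ D * (1 + 1 / (D : ℝ)) ^ D ≤ 1 := by
    rw [← mul_pow]
    apply pow_le_one₀
    · have : 1 / (D : ℝ) ≤ 1 := by rw [div_le_one hD0]; exact hD1
      have h3 : (0 : ℝ) < 1 / D := by positivity
      nlinarith
    · have h3 : (0 : ℝ) < 1 / D := by positivity
      nlinarith
  have h3 : (0 : ℝ) ≤ (1 - 1 / (D : ℝ)) ^ D := by
    apply pow_nonneg
    have : 1 / (D : ℝ) ≤ 1 := by rw [div_le_one hD0]; exact hD1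
    linarith
  nlinarith

/-- The main union bound. -/
theorem cnt_not_sync_le (hk : 2 ≤ k) {G : OutRegular n k} (hG : Primitive G) {D : ℕ}
    (hD : ∀ v, (outNbrs G v).card ≤ D) (hns : IsEmpty (SpecialData G)) :
    ((cnt fun c : Coloring n k => ¬ IsSync (step G c) : ℕ) : ℝ) ≤
      33 * ((branching G).card : ℝ) ^ 4 * (D : ℝ) ^ 6 * ((Nat.log 2 k : ℝ) + 1) ^ 2 / (k : ℝ) ^ 2 *
        Fintype.card (Coloring n k) := by
  classical
  have := nonempty_of_primitive hG
  have hk1 : 1 ≤ k := by omega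
  have hD1 : 1 ≤ D := by
    obtain ⟨v⟩ := this
    refine le_trans ?_ (hD v)
    exact card_pos.2 ⟨G v ⟨0, hk1⟩, mem_outNbrs v _⟩
  choose a ha ham using exists_main hk1 G
  obtain ⟨K, hK⟩ := exists_canon G hD
  set l := Nat.log 2 k + 1 with hl
  set T := D * (2 * l) with hT
  have hT2 : 2 ≤ T := by
    rw [hT]
    have : 1 * (2 * 1) ≤ D * (2 * l) := Nat.mul_le_mul hD1 (Nat.mul_le_mul_left _ (by omega))
    omega
  set b := (branching G).card with hb
  set M := (Fintype.card (Coloring n k) : ℝ) with hM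
  have hM0 : 0 ≤ M := Nat.cast_nonneg _
  have hk0 : (0 : ℝ) < k := by exact_mod_cast (show 0 < k by omega)
  have hk2 : (2 : ℝ) ≤ k := by exact_mod_cast hk
  have hD0 : (0 : ℝ) < D := by exact_mod_cast hD1
  have hD1' : (1 : ℝ) ≤ D := by exact_mod_cast hD1
  -- the set of non-synchronizing colorings
  set N := (univ : Finset (Coloring n k)).filter fun c => ¬ IsSync (step G c) with hN
  have hcntN : (cnt fun c : Coloring n k => ¬ IsSync (step G c)) = N.card := cnt_eq _
  -- first family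
  set I1 := ((branching G ×ˢ branching G) ×ˢ (univ : Finset (Fin n))).filter
    fun x => x.1.2 ≠ x.1.1 ∧ x.2 ∈ outNbrs G x.1.1 ∧ T ≤ mult G x.1.1 x.2 with hI1
  set A1 : (Fin n × Fin n) × Fin n → Finset (Coloring n k) := fun x =>
    univ.filter fun c => ∀ g g', G x.1.1 g = x.2 → G x.1.2 g' = a x.1.2 → c x.1.1 g ≠ c x.1.2 g'
    with hA1
  -- second family
  set I2 := ((K.S ×ˢ K.S) ×ˢ (rare G T ×ˢ rare G T)).filter
    fun x => Adm x.1.1 x.2.1 x.1.2 x.2.2 with hI2
  set A2 : ((Fin n × Fin k) × (Fin n × Fin k)) × ((Fin n × Fin k) × (Fin n × Fin k)) →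
      Finset (Coloring n k) := fun x =>
    univ.filter fun c => Coin c x.1.1 x.2.1 ∧ Coin c x.1.2 x.2.2 with hA2
  have hcover : N ⊆ I1.biUnion A1 ∪ I2.biUnion A2 := by
    intro c hc
    rw [hN, mem_filter] at hc
    rw [mem_union]
    by_cases hgood : GoodC G a T c
    · right
      rcases exists_special_or_pair hG ha hT2 K hgood hc.2 with hsp | hpair
      · exact absurd hsp (not_nonempty_iff.2 hns)
      · obtain ⟨h1, hh1, h2, hh2, g1, hg1, g2, hg2, hadm, hc1, hc2⟩ := hpair
        rw [mem_biUnion]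
        refine ⟨((h1, h2), (g1, g2)), ?_, ?_⟩
        · rw [hI2, mem_filter, mem_product, mem_product, mem_product]
          exact ⟨⟨⟨hh1, hh2⟩, ⟨hg1, hg2⟩⟩, hadm⟩
        · rw [hA2]
          exact mem_filter.2 ⟨mem_univ _, hc1, hc2⟩
    · left
      rw [GoodC] at hgood
      push Not at hgood
      obtain ⟨u, hu, v, hv, huv, s, hs, hsT, hno⟩ := hgood
      rw [mem_biUnion]
      refine ⟨((u, v), s), ?_, ?_⟩
      · rw [hI1, mem_filter, mem_product, mem_product]
        exact ⟨⟨⟨hu, hv⟩, mem_univ _⟩, huv.symm, hs, hsT⟩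
      · rw [hA1]
        exact mem_filter.2 ⟨mem_univ _, hno⟩
  -- sizes of the index sets
  have hI1card : (I1.card : ℝ) ≤ (b : ℝ) * b * D := by
    have h1 : I1.card ≤ b * b * D := by
      have h2 : I1 ⊆ (branching G ×ˢ branching G).biUnion fun y =>
          (outNbrs G y.1).image fun s => (y, s) := by
        intro x hx
        rw [hI1, mem_filter, mem_product] at hx
        rw [mem_biUnion]
        exact ⟨x.1, hx.1.1, mem_image.2 ⟨x.2, hx.2.2.1, rfl⟩⟩
      refine le_trans (card_le_card h2) (le_trans card_biUnion_le ?_)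
      calc ∑ y ∈ branching G ×ˢ branching G, ((outNbrs G y.1).image fun s => (y, s)).card
          ≤ ∑ y ∈ branching G ×ˢ branching G, D :=
            sum_le_sum fun y _ => le_trans card_image_le (hD _)
        _ = b * b * D := by rw [sum_const, card_product, smul_eq_mul]
    exact_mod_cast h1
  have hI2card : (I2.card : ℝ) ≤ ((b : ℝ) * (D * 2)) ^ 2 * (b * (D * T)) ^ 2 := by
    have h1 : I2.card ≤ (b * (D * 2)) ^ 2 * (b * (D * T)) ^ 2 := by
      refine le_trans (card_filter_le _ _) ?_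
      rw [card_product, card_product, card_product]
      have h3 := card_rare_le G hD T
      calc K.S.card * K.S.card * ((rare G T).card * (rare G T).card)
          ≤ (b * (D * 2)) * (b * (D * 2)) * ((b * (D * T)) * (b * (D * T))) := by
            gcongr
        _ = (b * (D * 2)) ^ 2 * (b * (D * T)) ^ 2 := by ring
    exact_mod_cast h1
  -- bounds for the members
  have hA1card : ∀ x ∈ I1, ((A1 x).card : ℝ) ≤ 1 / (k : ℝ) ^ 2 * M := by
    intro x hx
    rw [hI1, mem_filter] at hx
    obtain ⟨-, hne, -, hTm⟩ := hx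
    have h1 := avoid_le hk1 G hne x.2 (a x.1.2)
    rw [cnt_eq] at h1
    refine le_trans h1 ?_
    apply mul_le_mul_of_nonneg_right _ hM0
    set q := ((k : ℝ) - mult G x.1.2 (a x.1.2)) / k with hq
    have hmk : (mult G x.1.2 (a x.1.2) : ℝ) ≤ k := by
      have : mult G x.1.2 (a x.1.2) ≤ k := by
        refine le_trans (card_le_univ _) ?_
        rw [Fintype.card_fin]
      exact_mod_cast this
    have hq0 : 0 ≤ q := div_nonneg (by linarith) hk0.le
    have hq1 : q ≤ 1 - 1 / (D : ℝ) := by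
      have h2 : (k : ℝ) ≤ D * mult G x.1.2 (a x.1.2) := by
        have h3 : k ≤ D * mult G x.1.2 (a x.1.2) :=
          le_trans (ham x.1.2) (Nat.mul_le_mul_right _ (hD _))
        exact_mod_cast h3
      rw [hq, sub_div, div_self hk0.ne']
      have h4 : 1 / (D : ℝ) ≤ (mult G x.1.2 (a x.1.2) : ℝ) / k := by
        rw [div_le_div_iff₀ hD0 hk0]
        linarith
      linarith
    have hq2 : q ≤ 1 := by
      have : (0 : ℝ) < 1 / D := by positivity
      linarith
    calc q ^ mult G x.1.1 x.2 ≤ q ^ T := pow_le_pow_of_le_one hq0 hq2 hTm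
      _ ≤ (1 - 1 / (D : ℝ)) ^ T := pow_le_pow_left₀ hq0 hq1 _
      _ = ((1 - 1 / (D : ℝ)) ^ D) ^ (2 * l) := by rw [hT, pow_mul]
      _ ≤ (1 / 2) ^ (2 * l) := by
          apply pow_le_pow_left₀ _ (half_pow hD1)
          apply pow_nonneg
          have : 1 / (D : ℝ) ≤ 1 := by rw [div_le_one hD0]; exact hD1'
          linarith
      _ ≤ 1 / (k : ℝ) ^ 2 := by
          rw [one_div, inv_pow, ← one_div]
          apply one_div_le_one_div_of_le (by positivity)
          have h5 : (k : ℝ) ≤ 2 ^ l := by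
            have : k < 2 ^ l := Nat.lt_pow_succ_log_self (by norm_num) k
            exact_mod_cast this.le
          calc (k : ℝ) ^ 2 ≤ (2 ^ l) ^ 2 := by gcongr
            _ = 2 ^ (2 * l) := by rw [← pow_mul, mul_comm]
  have hA2card : ∀ x ∈ I2, ((A2 x).card : ℝ) ≤ 1 / ((k : ℝ) * (k - 1)) * M := by
    intro x hx
    rw [hI2, mem_filter] at hx
    have h1 := coin_pair_le hk hx.2
    rw [cnt_eq] at h1
    exact h1
  -- assembly
  have hNcard : (N.card : ℝ) ≤ ∑ x ∈ I1, ((A1 x).card : ℝ) + ∑ x ∈ I2, ((A2 x).card : ℝ) := by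
    have h1 : N.card ≤ ∑ x ∈ I1, (A1 x).card + ∑ x ∈ I2, (A2 x).card :=
      le_trans (card_le_card hcover) (le_trans (card_union_le _ _)
        (Nat.add_le_add card_biUnion_le card_biUnion_le))
    exact_mod_cast h1
  have hs1 : ∑ x ∈ I1, ((A1 x).card : ℝ) ≤ ((b : ℝ) * b * D) * (1 / (k : ℝ) ^ 2 * M) := by
    calc ∑ x ∈ I1, ((A1 x).card : ℝ) ≤ ∑ x ∈ I1, 1 / (k : ℝ) ^ 2 * M := sum_le_sum hA1card
      _ = I1.card * (1 / (k : ℝ) ^ 2 * M) := by rw [sum_const, nsmul_eq_mul]
      _ ≤ ((b : ℝ) * b * D) * (1 / (k : ℝ) ^ 2 * M) := by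
          apply mul_le_mul_of_nonneg_right hI1card
          positivity
  have hkk : (0 : ℝ) < (k : ℝ) * (k - 1) := mul_pos hk0 (by linarith)
  have hs2 : ∑ x ∈ I2, ((A2 x).card : ℝ) ≤
      (((b : ℝ) * (D * 2)) ^ 2 * (b * (D * T)) ^ 2) * (1 / ((k : ℝ) * (k - 1)) * M) := by
    calc ∑ x ∈ I2, ((A2 x).card : ℝ) ≤ ∑ x ∈ I2, 1 / ((k : ℝ) * (k - 1)) * M :=
          sum_le_sum hA2card
      _ = I2.card * (1 / ((k : ℝ) * (k - 1)) * M) := by rw [sum_const, nsmul_eq_mul]
      _ ≤ _ := by
          apply mul_le_mul_of_nonneg_right hI2card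
          apply mul_nonneg _ hM0
          exact (one_div_pos.2 hkk).le
  rw [hcntN]
  have hlR : (l : ℝ) = (Nat.log 2 k : ℝ) + 1 := by rw [hl]; push_cast; ring
  have hTR : (T : ℝ) = D * (2 * l) := by rw [hT]; push_cast; ring
  rw [← hlR]
  have hl1 : (1 : ℝ) ≤ l := by
    have : 1 ≤ l := by omega
    exact_mod_cast this
  have hinv : 1 / ((k : ℝ) * (k - 1)) ≤ 2 * (1 / (k : ℝ) ^ 2) := by
    rw [show 2 * (1 / (k : ℝ) ^ 2) = 2 / (k : ℝ) ^ 2 by ring, div_le_div_iff₀ hkk (by positivity)]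
    nlinarith
  have hb2 : (b : ℝ) * b * D ≤ (b : ℝ) ^ 4 * (D : ℝ) ^ 6 * (l : ℝ) ^ 2 := by
    rcases Nat.eq_zero_or_pos b with h0 | hpos
    · rw [h0]; simp
    · have hb1 : (1 : ℝ) ≤ b := by exact_mod_cast hpos
      calc (b : ℝ) * b * D = (b : ℝ) ^ 2 * (D : ℝ) ^ 1 * 1 := by ring
        _ ≤ (b : ℝ) ^ 4 * (D : ℝ) ^ 6 * (l : ℝ) ^ 2 := by
            gcongr <;> first | assumption | exact one_le_pow₀ hl1 | norm_num
  calc (N.card : ℝ) ≤ ∑ x ∈ I1, ((A1 x).card : ℝ) + ∑ x ∈ I2, ((A2 x).card : ℝ) := hNcard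
    _ ≤ ((b : ℝ) * b * D) * (1 / (k : ℝ) ^ 2 * M) +
        (((b : ℝ) * (D * 2)) ^ 2 * (b * (D * T)) ^ 2) * (1 / ((k : ℝ) * (k - 1)) * M) :=
          add_le_add hs1 hs2
    _ ≤ ((b : ℝ) ^ 4 * (D : ℝ) ^ 6 * (l : ℝ) ^ 2) * (1 / (k : ℝ) ^ 2 * M) +
        (((b : ℝ) * (D * 2)) ^ 2 * (b * (D * T)) ^ 2) * ((2 * (1 / (k : ℝ) ^ 2)) * M) := by
          gcongr
    _ = 33 * (b : ℝ) ^ 4 * (D : ℝ) ^ 6 * (l : ℝ) ^ 2 / (k : ℝ) ^ 2 * M := by
          rw [hTR]
          ring

end Pool.Agent.H10.Sync
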