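import Pool.Agent.H10.Sync.Graph

/-!
# The special case

Suppose some non-synchronizing coloring `c0` has exactly two edges `(p, ep)`, `(q, eq)` whose head is
not stably equivalent to the reference head `a v` of its tail `v`. Then a coloring is
non-synchronizing if and only if it gives the same color to these two edges.
-/

namespace Pool.Agent.H10.Sync

open Finset

variable {n k : ℕ} {G : OutRegular n k}

/-- The data of the special case. -/
structure SpecialData (G : OutRegular n k) where
  c0 : Coloring n k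
  a : Fin n → Fin n
  p : Fin n
  q : Fin n
  ep : Fin k
  eq : Fin k
  hns : ¬ IsSync (step G c0)
  hpq : p ≠ q
  hp : ¬ Stab (step G c0) (G p ep) (a p)
  hq : ¬ Stab (step G c0) (G q eq) (a q)
  hp' : ∀ e, e ≠ ep → Stab (step G c0) (G p e) (a p)
  hq' : ∀ e, e ≠ eq → Stab (step G c0) (G q e) (a q)
  ho : ∀ v e, v ≠ p → v ≠ q → Stab (step G c0) (G v e) (a v)

namespace SpecialData

/-- The data with the roles of `p` and `q` exchanged. -/
def swap (S : SpecialData G) : SpecialData G where
  c0 := S.c0
  a := S.a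
  p := S.q
  q := S.p
  ep := S.eq
  eq := S.ep
  hns := S.hns
  hpq := S.hpq.symm
  hp := S.hq
  hq := S.hp
  hp' := S.hq'
  hq' := S.hp'
  ho := fun v e h h' => S.ho v e h' h

theorem exists_letter (hk : 3 ≤ k) (x y : Fin k) : ∃ d, d ≠ x ∧ d ≠ y := by
  have h1 : (({x, y} : Finset (Fin k))ᶜ).Nonempty := by
    rw [← card_pos, card_compl, Fintype.card_fin]
    have := card_le_two (a := x) (b := y)
    omega
  obtain ⟨d, hd⟩ := h1
  rw [mem_compl, mem_insert, mem_singleton, not_or] at hd
  exact ⟨d, hd⟩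

variable (S : SpecialData G)

theorem stab_step_p {x : Fin k} {c : Coloring n k} (hx : x ≠ c S.p S.ep) :
    Stab (step G S.c0) (step G c S.p x) (S.a S.p) := by
  apply S.hp'
  intro h
  apply hx
  rw [← h, Equiv.apply_symm_apply]

theorem stab_step_q {x : Fin k} {c : Coloring n k} (hx : x ≠ c S.q S.eq) :
    Stab (step G S.c0) (step G c S.q x) (S.a S.q) :=
  S.swap.stab_step_p hx

theorem not_stab_qp (hG : Primitive G) (hk : 3 ≤ k) : ¬ Stab (step G S.c0) S.q S.p := by
  intro hqp
  obtain ⟨d, hd1, hd2⟩ := exists_letter hk (S.c0 S.p S.ep) (S.c0 S.q S.eq)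
  have h1 := stab_of_pairwise' hG S.c0 S.p (step G S.c0 S.p d) (S.c0 S.p S.ep) fun u hu => by
    refine ⟨d, rfl, ?_⟩
    have hup : u ≠ S.p := fun h => hu (by rw [h]; exact Stab.refl _)
    have huq : u ≠ S.q := fun h => hu (by rw [h]; exact hqp)
    exact (S.ho u _ hup huq).trans (S.ho u _ hup huq).symm
  rw [step_color] at h1
  exact S.hp (h1.trans (S.stab_step_p hd1))

theorem eq_of_stab_p (hG : Primitive G) (hk : 3 ≤ k) {u : Fin n}
    (hu : Stab (step G S.c0) u S.p) : u = S.p := by
  by_contra hne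
  have huq : u ≠ S.q := fun h => S.not_stab_qp hG hk (h ▸ hu)
  obtain ⟨d, hd1, -⟩ := exists_letter hk (S.c0 S.p S.ep) (S.c0 S.q S.eq)
  have h1 : Stab (step G S.c0) (step G S.c0 u (S.c0 S.p S.ep)) (G S.p S.ep) := by
    have := hu.step (S.c0 S.p S.ep)
    rwa [step_color] at this
  have h2 : Stab (step G S.c0) (step G S.c0 u d) (S.a S.p) :=
    (hu.step d).trans (S.stab_step_p hd1)
  have h3 : Stab (step G S.c0) (step G S.c0 u (S.c0 S.p S.ep)) (step G S.c0 u d) :=
    (S.ho u _ hne huq).trans (S.ho u _ hne huq).symm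
  exact S.hp (h1.symm.trans (h3.trans h2))

theorem eq_of_stab_q (hG : Primitive G) (hk : 3 ≤ k) {u : Fin n}
    (hu : Stab (step G S.c0) u S.q) : u = S.q :=
  S.swap.eq_of_stab_p hG hk hu

theorem stab_a (hk : 3 ≤ k) {u u' : Fin n} (hp : u ≠ S.p) (hq : u ≠ S.q) (hp' : u' ≠ S.p)
    (hq' : u' ≠ S.q) (h : Stab (step G S.c0) u u') : Stab (step G S.c0) (S.a u) (S.a u') := by
  have z : Fin k := ⟨0, by omega⟩
  exact (S.ho u _ hp hq).symm.trans ((h.step z).trans (S.ho u' _ hp' hq'))

/-- Compatibility of the stable equivalence of `c0` with every coloring. -/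
theorem stab_step (hG : Primitive G) (hk : 3 ≤ k) (c : Coloring n k) {u u' : Fin n}
    (h : Stab (step G S.c0) u u') (x : Fin k) :
    Stab (step G S.c0) (step G c u x) (step G c u' x) := by
  by_cases hp : u' = S.p
  · rw [hp] at h ⊢
    rw [S.eq_of_stab_p hG hk h]
    exact Stab.refl _
  by_cases hq : u' = S.q
  · rw [hq] at h ⊢
    rw [S.eq_of_stab_q hG hk h]
    exact Stab.refl _
  have hp1 : u ≠ S.p := fun e => hp (S.eq_of_stab_p hG hk (e ▸ h.symm))
  have hq1 : u ≠ S.q := fun e => hq (S.eq_of_stab_q hG hk (e ▸ h.symm))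
  exact (S.ho u _ hp1 hq1).trans ((S.stab_a hk hp1 hq1 hp hq h).trans (S.ho u' _ hp hq).symm)

theorem stab_run (hG : Primitive G) (hk : 3 ≤ k) (c : Coloring n k) (w : List (Fin k))
    {u u' : Fin n} (h : Stab (step G S.c0) u u') :
    Stab (step G S.c0) (run (step G c) u w) (run (step G c) u' w) := by
  induction w generalizing u u' with
  | nil => exact h
  | cons x w ih => exact ih (S.stab_step hG hk c h x)

theorem collapse (hG : Primitive G) (hk : 3 ≤ k) (l : ℕ) (u z : Fin n) (hr : Reach G l u z)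
    (hz : z = S.p ∨ z = S.q) : ∃ (t : ℕ) (z' : Fin n), ∀ (c : Coloring n k) (u' : Fin n),
      Stab (step G S.c0) u' u → ∀ w : List (Fin k), w.length = t →
        run (step G c) u' w = z' := by
  induction l generalizing u with
  | zero =>
    have huz : u = z := hr
    refine ⟨0, u, fun c u' hu' w hw => ?_⟩
    have hw' : w = [] := List.length_eq_zero_iff.1 hw
    rw [hw', run_nil]
    rw [huz] at hu' ⊢
    rcases hz with hz | hz
    · rw [hz] at hu' ⊢; exact S.eq_of_stab_p hG hk hu'
    · rw [hz] at hu' ⊢; exact S.eq_of_stab_q hG hk hu'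
  | succ l ih =>
    by_cases hup : u = S.p
    · refine ⟨0, u, fun c u' hu' w hw => ?_⟩
      have hw' : w = [] := List.length_eq_zero_iff.1 hw
      rw [hw', run_nil]
      rw [hup] at hu' ⊢; exact S.eq_of_stab_p hG hk hu'
    by_cases huq : u = S.q
    · refine ⟨0, u, fun c u' hu' w hw => ?_⟩
      have hw' : w = [] := List.length_eq_zero_iff.1 hw
      rw [hw', run_nil]
      rw [huq] at hu' ⊢; exact S.eq_of_stab_q hG hk hu'
    obtain ⟨e, he⟩ := hr
    obtain ⟨t, z', ht⟩ := ih (G u e) he
    refine ⟨t + 1, z', fun c u' hu' w hw => ?_⟩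
    match w, hw with
    | x :: w, hw =>
      rw [run_cons]
      apply ht c _ _ w (by simpa using hw)
      have hp1 : u' ≠ S.p := fun e => hup (S.eq_of_stab_p hG hk (e ▸ hu'.symm))
      have hq1 : u' ≠ S.q := fun e => huq (S.eq_of_stab_q hG hk (e ▸ hu'.symm))
      exact (S.ho u' _ hp1 hq1).trans ((S.stab_a hk hp1 hq1 hup huq hu').trans (S.ho u _ hup huq).symm)

/-- The stable equivalence of `c0` is contained in that of every coloring. -/
theorem stab_of_stab (hG : Primitive G) (hk : 3 ≤ k) (c : Coloring n k) {u u' : Fin n}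
    (h : Stab (step G S.c0) u u') : Stab (step G c) u u' := by
  intro w
  have h1 := S.stab_run hG hk c w h
  obtain ⟨l, hl⟩ := hG.1 (run (step G c) u' w) S.p
  obtain ⟨t, z', ht⟩ := S.collapse hG hk l _ _ hl (Or.inl rfl)
  have x : Fin k := ⟨0, by omega⟩
  refine ⟨List.replicate t x, ?_⟩
  rw [ht c _ h1 _ (List.length_replicate ..), ht c _ (Stab.refl _) _ (List.length_replicate ..)]

theorem stab_p_of_ne (hG : Primitive G) (hk : 3 ≤ k) {c : Coloring n k}
    (hc : c S.p S.ep ≠ c S.q S.eq) : Stab (step G c) (G S.p S.ep) (S.a S.p) := by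
  obtain ⟨d, hd1, hd2⟩ := exists_letter hk (c S.p S.ep) (c S.q S.eq)
  have h1 := stab_of_pairwise' hG c S.p (step G c S.p d) (c S.p S.ep) fun u hu => by
    refine ⟨d, rfl, S.stab_of_stab hG hk c ?_⟩
    have hup : u ≠ S.p := fun h => hu (by rw [h]; exact Stab.refl _)
    by_cases huq : u = S.q
    · rw [huq]
      exact (S.stab_step_q hd2).trans (S.stab_step_q hc).symm
    · exact (S.ho u _ hup huq).trans (S.ho u _ hup huq).symm
  rw [step_color] at h1
  exact h1.trans (S.stab_of_stab hG hk c (S.stab_step_p hd1))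

theorem sync_of_ne (hG : Primitive G) (hk : 3 ≤ k) {c : Coloring n k}
    (hc : c S.p S.ep ≠ c S.q S.eq) : IsSync (step G c) := by
  apply sync_of_all_stab hG
  have key : ∀ v e, Stab (step G c) (G v e) (S.a v) := by
    intro v e
    by_cases hvp : v = S.p
    · rw [hvp]
      by_cases he : e = S.ep
      · rw [he]; exact S.stab_p_of_ne hG hk hc
      · exact S.stab_of_stab hG hk c (S.hp' e he)
    by_cases hvq : v = S.q
    · rw [hvq]
      by_cases he : e = S.eq
      · rw [he]; exact S.swap.stab_p_of_ne hG hk hc.symm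
      · exact S.stab_of_stab hG hk c (S.hq' e he)
    exact S.stab_of_stab hG hk c (S.ho v e hvp hvq)
  exact fun v e e' => (key v e).trans (key v e').symm

theorem c0_eq (hG : Primitive G) (hk : 3 ≤ k) : S.c0 S.p S.ep = S.c0 S.q S.eq := by
  by_contra h
  exact S.hns (S.sync_of_ne hG hk h)

theorem not_sync_of_eq (hG : Primitive G) (hk : 3 ≤ k) {c : Coloring n k}
    (hc : c S.p S.ep = c S.q S.eq) : ¬ IsSync (step G c) := by
  intro hs
  apply S.hns
  have h0 := S.c0_eq hG hk
  set s := c S.p S.ep with hsdef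
  set s0 := S.c0 S.p S.ep with hs0def
  have key : ∀ (w : List (Fin k)) (u u' : Fin n), Stab (step G S.c0) u u' →
      Stab (step G S.c0) (run (step G c) u w)
        (run (step G S.c0) u' (w.map (Equiv.swap s s0))) := by
    intro w
    induction w with
    | nil => exact fun u u' h => h
    | cons x w ih =>
      intro u u' h
      rw [List.map_cons, run_cons, run_cons]
      apply ih
      by_cases hp : u' = S.p
      · rw [hp] at h ⊢
        rw [S.eq_of_stab_p hG hk h]
        by_cases hx : x = s
        · rw [hx, Equiv.swap_apply_left, hsdef, step_color, hs0def, step_color]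
          exact Stab.refl _
        · have hx' : Equiv.swap s s0 x ≠ s0 := fun e => hx (by
            have : Equiv.swap s s0 x = Equiv.swap s s0 s := by rw [e, Equiv.swap_apply_left]
            exact (Equiv.swap s s0).injective this)
          exact (S.stab_step_p hx).trans (S.stab_step_p hx').symm
      by_cases hq : u' = S.q
      · rw [hq] at h ⊢
        rw [S.eq_of_stab_q hG hk h]
        by_cases hx : x = s
        · rw [hx, Equiv.swap_apply_left, hc, step_color, h0, step_color]
          exact Stab.refl _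
        · have hx' : Equiv.swap s s0 x ≠ s0 := fun e => hx (by
            have : Equiv.swap s s0 x = Equiv.swap s s0 s := by rw [e, Equiv.swap_apply_left]
            exact (Equiv.swap s s0).injective this)
          have hx1 : x ≠ c S.q S.eq := by rw [← hc]; exact hx
          have hx2 : Equiv.swap s s0 x ≠ S.c0 S.q S.eq := by rw [← h0]; exact hx'
          exact (S.stab_step_q hx1).trans (S.stab_step_q hx2).symm
      have hp1 : u ≠ S.p := fun e => hp (S.eq_of_stab_p hG hk (e ▸ h.symm))
      have hq1 : u ≠ S.q := fun e => hq (S.eq_of_stab_q hG hk (e ▸ h.symm))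
      exact (S.ho u _ hp1 hq1).trans ((S.stab_a hk hp1 hq1 hp hq h).trans (S.ho u' _ hp hq).symm)
  obtain ⟨w, z, hw⟩ := hs
  have := nonempty_of_primitive hG
  apply isSync_of_merg
  intro u v
  have h1 := key w u u (Stab.refl _)
  have h2 := key w v v (Stab.refl _)
  rw [hw] at h1 h2
  exact (h1.symm.trans h2).merg.of_run

theorem sync_iff (hG : Primitive G) (hk : 3 ≤ k) (c : Coloring n k) :
    IsSync (step G c) ↔ c S.p S.ep ≠ c S.q S.eq :=
  ⟨fun h h' => S.not_sync_of_eq hG hk h' h, fun h => S.sync_of_ne hG hk h⟩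

end SpecialData

end Pool.Agent.H10.Sync
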